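import Pool.Agent.Y753.SHR.Stm3

/-!
# Laplace transforms near zero in `ℝ^n`, normal limit (project SHL, job SHL-BALL)

(helper686, for helper753.)
-/

set_option autoImplicit false

namespace Pool.Agent.Y686.SHL

open MeasureTheory Filter Topology ProbabilityTheory
open Pool.Agent.Y753.SHL

lemma lf_smul {n : ℕ} (u : ℝ) (c y : Fin n → ℝ) : lf (fun j => u * c j) y = u * lf c y := by
  unfold lf
  rw [Finset.mul_sum]
  exact Finset.sum_congr rfl fun j _ => by ring

lemma qf_smul {n : ℕ} (C : Fin n → Fin n → ℝ) (u : ℝ) (c : Fin n → ℝ) :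
    qf C (fun j => u * c j) = u ^ 2 * qf C c := by
  unfold qf
  rw [Finset.mul_sum]
  refine Finset.sum_congr rfl fun i _ => ?_
  rw [Finset.mul_sum]
  exact Finset.sum_congr rfl fun j _ => by ring

lemma lf_cont {n : ℕ} (c : Fin n → ℝ) : Continuous (lf c) := by
  unfold lf
  fun_prop

lemma lf_abs {n : ℕ} (c : Fin n → ℝ) {r : ℝ} {u : ℝ} (hu : |u| < r / (1 + ∑ j, |c j|)) (j : Fin n) :
    |u * c j| < r := by
  have h0 : 0 ≤ ∑ j, |c j| := Finset.sum_nonneg fun j _ => abs_nonneg _
  have h1 : |c j| ≤ ∑ j, |c j| := Finset.single_le_sum (fun j _ => abs_nonneg (c j)) (Finset.mem_univ j)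
  rw [abs_mul]
  rw [lt_div_iff₀ (by positivity)] at hu
  have h2 := abs_nonneg u
  nlinarith

/-- the one-dimensional laws converge -/
lemma lines (h : S_CURT) {n : ℕ} (μ : ℝ → ProbabilityMeasure (Fin n → ℝ)) (m : Fin n → ℝ)
    (C : Fin n → Fin n → ℝ) (r : ℝ) (hr : 0 < r)
    (hL : ∀ θ : Fin n → ℝ, (∀ j, |θ j| < r) → Lap μ m C θ) (c : Fin n → ℝ) :
    0 ≤ qf C c ∧ Tendsto (fun T => (μ T).map (lf_cont c).measurable.aemeasurable) atTop
      (𝓝 ⟨gaussianReal (lf c m) (qf C c).toNNReal, inferInstance⟩) := by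
  have h0 : 0 ≤ ∑ j, |c j| := Finset.sum_nonneg fun j _ => abs_nonneg _
  refine h _ _ _ (r / (1 + ∑ j, |c j|)) (by positivity) ?_
  intro u hu
  obtain ⟨h1, h2⟩ := hL (fun j => u * c j) (lf_abs c hu)
  simp only [lf_smul, qf_smul] at h1 h2
  have hm : ∀ T, AEStronglyMeasurable (fun x : ℝ => Real.exp (u * x))
      ((μ T : Measure (Fin n → ℝ)).map (lf c)) := fun T =>
    (by fun_prop : Continuous fun x : ℝ => Real.exp (u * x)).aestronglyMeasurable
  constructor
  · filter_upwards [h1] with T hT
    rw [ProbabilityMeasure.toMeasure_map, integrable_map_measure (hm T)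
      (lf_cont c).measurable.aemeasurable]
    exact hT
  · refine h2.congr fun T => ?_
    rw [ProbabilityMeasure.toMeasure_map, integral_map (lf_cont c).measurable.aemeasurable (hm T)]

lemma charFun_toLp {n : ℕ} (ν : Measure (Fin n → ℝ)) (t : EuclideanSpace ℝ (Fin n)) :
    charFun (ν.map (WithLp.toLp 2)) t = charFun (ν.map (lf (WithLp.ofLp t))) 1 := by
  rw [charFun_apply, charFun_apply, integral_map (by fun_prop) (by fun_prop),
    integral_map (lf_cont _).measurable.aemeasurable (by fun_prop)]
  refine integral_congr_ae (Eventually.of_forall fun y => ?_)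
  simp only
  congr 2
  simp [PiLp.inner_apply, lf]

lemma pos_semi {n : ℕ} (C : Fin n → Fin n → ℝ) (hC : ∀ i j, C i j = C j i)
    (h0 : ∀ c, 0 ≤ qf C c) : (Matrix.of C).PosSemidef := by
  refine Matrix.PosSemidef.of_dotProduct_mulVec_nonneg ?_ ?_
  · ext i j
    simp [Matrix.conjTranspose_apply, hC i j]
  · intro x
    have := h0 x
    unfold qf at this
    refine this.trans_eq ?_
    refine Finset.sum_congr rfl fun i _ => ?_
    show _ = x i * ∑ j, C i j * x j
    rw [Finset.mul_sum]
    exact Finset.sum_congr rfl fun j _ => by ring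

theorem ball (h : S_CURT) : S_BALL := by
  intro n μ m C r hr hC hL
  have key := fun c => lines h μ m C r hr hL c
  have hS : (Matrix.of C).PosSemidef := pos_semi C hC fun c => (key c).1
  let ρE : ProbabilityMeasure (EuclideanSpace ℝ (Fin n)) :=
    ⟨multivariateGaussian (WithLp.toLp 2 m) (Matrix.of C), inferInstance⟩
  have hc1 : Continuous (WithLp.toLp 2 : (Fin n → ℝ) → EuclideanSpace ℝ (Fin n)) := by fun_prop
  have hc2 : Continuous (WithLp.ofLp : EuclideanSpace ℝ (Fin n) → (Fin n → ℝ)) := by fun_prop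
  let ρ : ProbabilityMeasure (Fin n → ℝ) := ρE.map hc2.measurable.aemeasurable
  have hρ : (ρ : Measure (Fin n → ℝ)).map (WithLp.toLp 2) =
      (ρE : Measure (EuclideanSpace ℝ (Fin n))) := by
    show (((ρE : Measure (EuclideanSpace ℝ (Fin n))).map WithLp.ofLp)).map (WithLp.toLp 2) = _
    rw [Measure.map_map hc1.measurable hc2.measurable]
    exact Measure.map_id
  -- characteristic function of `ρ`
  have hcf : ∀ c : Fin n → ℝ, charFun ((ρ : Measure (Fin n → ℝ)).map (lf c)) 1 =
      Complex.exp (lf c m * Complex.I - qf C c / 2) := by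
    intro c
    have h1 := charFun_toLp (ρ : Measure (Fin n → ℝ)) (WithLp.toLp 2 c)
    rw [hρ] at h1
    rw [← h1]
    show charFun (multivariateGaussian (WithLp.toLp 2 m) (Matrix.of C)) _ = _
    rw [charFun_multivariateGaussian hS]
    have e1 : inner ℝ (WithLp.toLp 2 c) (WithLp.toLp 2 m : EuclideanSpace ℝ (Fin n)) = lf c m := by
      simp [PiLp.inner_apply, lf, mul_comm]
    have e2 : dotProduct c ((Matrix.of C).mulVec c) = qf C c := by
      unfold qf
      refine Finset.sum_congr rfl fun i _ => ?_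
      show c i * ∑ j, C i j * c j = _
      rw [Finset.mul_sum]
      exact Finset.sum_congr rfl fun j _ => by ring
    rw [e1, e2]
  have hnor : Nor m C ρ := by
    intro c
    refine ⟨(key c).1, ?_⟩
    have : IsProbabilityMeasure ((ρ : Measure (Fin n → ℝ)).map (lf c)) :=
      Measure.isProbabilityMeasure_map (lf_cont c).measurable.aemeasurable
    refine Measure.ext_of_charFun ?_
    ext t
    have h1 : charFun ((ρ : Measure (Fin n → ℝ)).map (lf c)) t =
        charFun ((ρ : Measure (Fin n → ℝ)).map (lf (fun j => t * c j))) 1 := by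
      rw [charFun_apply, charFun_apply, integral_map (lf_cont _).measurable.aemeasurable (by fun_prop),
        integral_map (lf_cont _).measurable.aemeasurable (by fun_prop)]
      refine integral_congr_ae (Eventually.of_forall fun y => ?_)
      simp only [lf_smul]
      congr 2
      simp
    rw [h1, hcf, charFun_gaussianReal, lf_smul, qf_smul, Real.coe_toNNReal _ (key c).1]
    congr 1
    push_cast
    ring
  refine ⟨ρ, hnor, ?_⟩
  -- convergence in Euclidean space
  have hE : Tendsto (fun T => (μ T).map hc1.measurable.aemeasurable) atTop (𝓝 ρE) := by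
    refine tendsto_of_seq_tendsto fun T hT => ?_
    refine ProbabilityMeasure.tendsto_iff_tendsto_charFun.2 fun t => ?_
    have h1 := (key (WithLp.ofLp t)).2.comp hT
    have h2 := ProbabilityMeasure.tendsto_iff_tendsto_charFun.1 h1 1
    have h3 : charFun (ρE : Measure (EuclideanSpace ℝ (Fin n))) t =
        charFun (gaussianReal (lf (WithLp.ofLp t) m) (qf C (WithLp.ofLp t)).toNNReal) 1 := by
      rw [← hρ, charFun_toLp, (hnor _).2]
    rw [h3]
    refine h2.congr fun k => ?_
    show charFun ((μ (T k) : Measure (Fin n → ℝ)).map (lf (WithLp.ofLp t))) 1 =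
      charFun ((μ (T k) : Measure (Fin n → ℝ)).map (WithLp.toLp 2)) t
    rw [charFun_toLp]
  have h4 := ProbabilityMeasure.tendsto_map_of_tendsto_of_continuous _ _ hE hc2
  refine h4.congr fun T => ?_
  apply Subtype.ext
  show ((μ T : Measure (Fin n → ℝ)).map (WithLp.toLp 2)).map WithLp.ofLp = _
  rw [Measure.map_map hc2.measurable hc1.measurable]
  exact Measure.map_id

end Pool.Agent.Y686.SHL
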